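import Mathlib
import Pool.Agent.H18PC.PC

set_option autoImplicit false

namespace Pool.Agent.H6L2
open Pool.Agent.H18PC

theorem mem_conj {G : Type*} [Group G] (as : List G) (g : G) :
    ∀ x ∈ conjProd as, g * x * g⁻¹ ∈ conjProd as := by
  induction as with
  | nil =>
    intro x hx
    have hx' : x = 1 := hx
    subst hx'
    show g * 1 * g⁻¹ = 1
    simp
  | cons a as ih =>
    rintro x ⟨h, z, hz, rfl⟩
    exact ⟨g * h, g * z * g⁻¹, ih z hz, by group⟩

theorem split {G : Type*} [Group G] (a : G) (as : List G) (ha : a ∈ as) :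
    ∀ x ∈ conjProd as, ∃ P g R, x = P * (g * a * g⁻¹) * R ∧
      ∀ g', P * (g' * a * g'⁻¹) * R ∈ conjProd as := by
  induction as with
  | nil => simp at ha
  | cons b bs ih =>
    rintro x ⟨h, z, hz, rfl⟩
    by_cases hab : a = b
    · subst hab
      exact ⟨1, h, z, by group, fun g' => ⟨g', z, hz, by group⟩⟩
    · have ha' : a ∈ bs := by
        rcases List.mem_cons.1 ha with h1 | h1
        · exact absurd h1 hab
        · exact h1
      obtain ⟨P, g, R, rfl, hP⟩ := ih ha' z hz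
      exact ⟨h * b * h⁻¹ * P, g, R, by group,
        fun g' => ⟨h, P * (g' * a * g'⁻¹) * R, hP g', by group⟩⟩

section
variable {M : Type*} [Group M] (M0 : Subgroup M)

theorem conj_sub (hab : ∀ x y : M, x * y * x⁻¹ * y⁻¹ ∈ M0) (a P g : M) :
    P⁻¹ * a * P * (g * a * g⁻¹)⁻¹ ∈ M0 := by
  have h1 := hab P⁻¹ a
  have h2 := hab g a
  have h3 := M0.mul_mem h1 (M0.inv_mem h2)
  convert h3 using 1
  group

theorem comm_m (hn : M0.Normal)
    (hM0 : ∀ x ∈ M0, ∀ y ∈ M0, x * y = y * x) (hab : ∀ x y : M, x * y * x⁻¹ * y⁻¹ ∈ M0)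
    (as : List M) (a : M) (ha : a ∈ as) (m : M) (hm : m ∈ M0) (x : M) (hx : x ∈ conjProd as) :
    a * m * a⁻¹ * m⁻¹ * x ∈ conjProd as := by
  obtain ⟨P, g, R, rfl, hP⟩ := split a as ha x hx
  set b := g * a * g⁻¹ with hb
  set m' := P⁻¹ * m * P with hm'
  have hm'0 : m' ∈ M0 := by
    have := hn.conj_mem m hm P⁻¹
    simpa [hm'] using this
  set n := P⁻¹ * a * P * b⁻¹ with hndef
  have hn0 : n ∈ M0 := conj_sub M0 hab a P g
  set u := b * m' * b⁻¹ with hu
  have hu0 : u ∈ M0 := hn.conj_mem m' hm'0 b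
  have e1 : n * u = u * n := hM0 n hn0 u hu0
  have e2 : u * m'⁻¹ = m'⁻¹ * u := hM0 u hu0 m'⁻¹ (M0.inv_mem hm'0)
  have key : n * u * n⁻¹ * m'⁻¹ * b = m'⁻¹ * b * m' := by
    rw [e1]
    calc u * n * n⁻¹ * m'⁻¹ * b = (u * m'⁻¹) * b := by group
      _ = m'⁻¹ * u * b := by rw [e2]
      _ = m'⁻¹ * b * m' := by rw [hu]; group
  have h1 : a * m * a⁻¹ * m⁻¹ * (P * b * R) = P * (n * u * n⁻¹ * m'⁻¹ * b) * R := by
    rw [hu, hndef, hm']; group
  rw [h1, key]
  have h2 := hP (m'⁻¹ * g)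
  have h3 : m'⁻¹ * g * a * (m'⁻¹ * g)⁻¹ = m'⁻¹ * b * m' := by rw [hb]; group
  rw [h3] at h2
  exact h2

/-- the stabiliser of `conjProd as` under left multiplication -/
def stab (as : List M) : Subgroup M where
  carrier := {z | ∀ x, z * x ∈ conjProd as ↔ x ∈ conjProd as}
  mul_mem' := by
    intro a b ha hb x
    rw [mul_assoc, ha, hb]
  one_mem' := by intro x; rw [one_mul]
  inv_mem' := by
    intro a ha x
    have := ha (a⁻¹ * x)
    rw [mul_inv_cancel_left] at this
    exact this.symm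

theorem mem_stab (as : List M) (z : M) :
    z ∈ stab as ↔ ∀ x, z * x ∈ conjProd as ↔ x ∈ conjProd as := Iff.rfl

theorem conj_iff (as : List M) (g x : M) : g * x * g⁻¹ ∈ conjProd as ↔ x ∈ conjProd as := by
  constructor
  · intro h
    have := mem_conj as g⁻¹ _ h
    simpa [mul_assoc] using this
  · exact mem_conj as g x

theorem stab_normal (as : List M) : (stab as).Normal := by
  constructor
  intro z hz g
  rw [mem_stab] at hz ⊢
  intro x
  have h1 : g * z * g⁻¹ * x = g * (z * (g⁻¹ * x * g)) * g⁻¹ := by group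
  rw [h1, conj_iff, hz]
  have h2 : g⁻¹ * x * g = g⁻¹ * x * g⁻¹⁻¹ := by group
  rw [h2, conj_iff]

theorem conjProd_comm_mul (M0 : Subgroup M) (hn : M0.Normal)
    (hM0 : ∀ x ∈ M0, ∀ y ∈ M0, x * y = y * x) (hab : ∀ x y : M, x * y * x⁻¹ * y⁻¹ ∈ M0)
    (as : List M) (N : Subgroup M) (hN : N = M0 ⊔ Subgroup.closure {a | a ∈ as})
    (x z : M) (hx : x ∈ conjProd as) (hz : z ∈ ⁅N, N⁆) : z * x ∈ conjProd as := by
  haveI hQn : (stab as).Normal := stab_normal as
  let π : M →* M ⧸ stab as := QuotientGroup.mk' (stab as)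
  -- [a, m] in the stabiliser
  have hQ1 : ∀ a ∈ as, ∀ m ∈ M0, a * m * a⁻¹ * m⁻¹ ∈ stab as := by
    intro a ha m hm
    rw [mem_stab]
    intro y
    constructor
    · intro h
      have h2 := comm_m M0 hn hM0 hab as a ha m⁻¹ (M0.inv_mem hm) _ h
      have hv : a * m * a⁻¹ ∈ M0 := hn.conj_mem m hm a
      have e1 : a * m * a⁻¹ * m⁻¹ = m⁻¹ * (a * m * a⁻¹) := hM0 _ hv _ (M0.inv_mem hm)
      have e2 : a * m⁻¹ * a⁻¹ * m⁻¹⁻¹ * (a * m * a⁻¹ * m⁻¹ * y) = y := by
        rw [e1]; group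
      rwa [e2] at h2
    · exact comm_m M0 hn hM0 hab as a ha m hm y
  have hc1 : ∀ a ∈ as, ∀ m ∈ M0, π a * π m = π m * π a := by
    intro a ha m hm
    have h1 : π (a * m * a⁻¹ * m⁻¹) = 1 := (QuotientGroup.eq_one_iff _).2 (hQ1 a ha m hm)
    rw [map_mul, map_mul, map_mul, map_inv, map_inv] at h1
    have h2 := mul_inv_eq_one.1 h1
    exact mul_inv_eq_iff_eq_mul.1 h2
  have hc2 : ∀ a ∈ as, ∀ g : M, ∀ m ∈ M0, π (g * a * g⁻¹) * π m = π m * π (g * a * g⁻¹) := by
    intro a ha g m hm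
    have hm' : g⁻¹ * m * g ∈ M0 := by
      have := hn.conj_mem m hm g⁻¹
      simpa using this
    have h1 := hc1 a ha _ hm'
    rw [← map_mul, ← map_mul] at h1 ⊢
    have h2 : g * a * g⁻¹ * m = g * (a * (g⁻¹ * m * g)) * g⁻¹ := by group
    have h3 : m * (g * a * g⁻¹) = g * ((g⁻¹ * m * g) * a) * g⁻¹ := by group
    rw [h2, h3, map_mul, map_mul, h1, ← map_mul, ← map_mul]
  -- [b, a] in the stabiliser
  have hstep : ∀ a ∈ as, ∀ b ∈ as, ∀ y ∈ conjProd as, b * a * b⁻¹ * a⁻¹ * y ∈ conjProd as := by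
    intro a ha b hb y hy
    obtain ⟨P, g, R, rfl, hP⟩ := split a as ha y hy
    have hcc : ∃ q ∈ stab as, P⁻¹ * (b * a * b⁻¹ * a⁻¹) * P =
        q * (b * (g * a * g⁻¹) * b⁻¹ * (g * a * g⁻¹)⁻¹) := by
      refine ⟨P⁻¹ * (b * a * b⁻¹ * a⁻¹) * P * (b * (g * a * g⁻¹) * b⁻¹ * (g * a * g⁻¹)⁻¹)⁻¹,
        ?_, by group⟩
      have hn1 : P⁻¹ * b * P * b⁻¹ ∈ M0 := by
        have := conj_sub M0 hab b P 1
        simpa using this
      have hn2 : P⁻¹ * a * P * (g * a * g⁻¹)⁻¹ ∈ M0 := conj_sub M0 hab a P g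
      set n1 := P⁻¹ * b * P * b⁻¹ with h1
      set n2 := P⁻¹ * a * P * (g * a * g⁻¹)⁻¹ with h2
      set c := g * a * g⁻¹ with hcdef
      have e : P⁻¹ * (b * a * b⁻¹ * a⁻¹) * P = (n1 * b) * (n2 * c) * (n1 * b)⁻¹ * (n2 * c)⁻¹ := by
        rw [h1, h2]; group
      have hb1 : π b * π n1 = π n1 * π b := hc1 b hb n1 hn1
      have hb2 : π b * π n2 = π n2 * π b := hc1 b hb n2 hn2
      have hc1' : π c * π n1 = π n1 * π c := hc2 a ha g n1 hn1
      have hc2' : π c * π n2 = π n2 * π c := hc2 a ha g n2 hn2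
      have h12 : π n1 * π n2 = π n2 * π n1 := by
        rw [← map_mul, ← map_mul, hM0 n1 hn1 n2 hn2]
      have hπ : π ((n1 * b) * (n2 * c) * (n1 * b)⁻¹ * (n2 * c)⁻¹) = π (b * c * b⁻¹ * c⁻¹) := by
        simp only [map_mul, map_inv]
        have f1 : π n1 * π b * (π n2 * π c) = π n1 * π n2 * (π b * π c) := by
          rw [mul_assoc, ← mul_assoc (π b), hb2]; simp only [mul_assoc]
        have f2 : π n2 * π c * (π n1 * π b) = π n1 * π n2 * (π c * π b) := by
          rw [mul_assoc, ← mul_assoc (π c), hc1', h12]; simp only [mul_assoc]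
        have hcom : Commute (π n1 * π n2) (π b * π c) := by
          apply Commute.mul_left
          · exact Commute.mul_right hb1.symm hc1'.symm
          · exact Commute.mul_right hb2.symm hc2'.symm
        have f3 : π n1 * π b * (π n2 * π c) * (π n1 * π b)⁻¹ * (π n2 * π c)⁻¹ =
            (π n1 * π b * (π n2 * π c)) * (π n2 * π c * (π n1 * π b))⁻¹ := by group
        rw [f3, f1, f2]
        have hcom' : Commute (π n1 * π n2) (π c * π b) := by
          apply Commute.mul_left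
          · exact Commute.mul_right hc1'.symm hb1.symm
          · exact Commute.mul_right hc2'.symm hb2.symm
        rw [hcom.eq, mul_inv_rev]
        have f4 : π b * π c * (π n1 * π n2) * ((π c * π b)⁻¹ * (π n1 * π n2)⁻¹) =
            π b * π c * ((π n1 * π n2) * (π c * π b)⁻¹) * (π n1 * π n2)⁻¹ := by group
        rw [f4, hcom'.inv_right.eq]
        group
      have : π (P⁻¹ * (b * a * b⁻¹ * a⁻¹) * P * (b * c * b⁻¹ * c⁻¹)⁻¹) = 1 := by
        rw [map_mul, e, hπ, map_inv, mul_inv_cancel]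
      exact (QuotientGroup.eq_one_iff _).1 this
    obtain ⟨q, hq, hqe⟩ := hcc
    have h1 : b * a * b⁻¹ * a⁻¹ * (P * (g * a * g⁻¹) * R) =
        (P * q * P⁻¹) * (P * ((b * g) * a * (b * g)⁻¹) * R) := by
      have h2 : b * a * b⁻¹ * a⁻¹ = P * (q * (b * (g * a * g⁻¹) * b⁻¹ * (g * a * g⁻¹)⁻¹)) * P⁻¹ := by
        rw [← hqe]; group
      rw [h2]; group
    rw [h1]
    exact ((mem_stab as _).1 (hQn.conj_mem q hq P) _).2 (hP (b * g))
  have hQ2 : ∀ a ∈ as, ∀ b ∈ as, π a * π b = π b * π a := by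
    intro a ha b hb
    have h0 : b * a * b⁻¹ * a⁻¹ ∈ stab as := by
      rw [mem_stab]
      intro y
      constructor
      · intro h
        have h2 := hstep b hb a ha _ h
        have e2 : a * b * a⁻¹ * b⁻¹ * (b * a * b⁻¹ * a⁻¹ * y) = y := by group
        rwa [e2] at h2
      · exact hstep a ha b hb y
    have h1 : π (b * a * b⁻¹ * a⁻¹) = 1 := (QuotientGroup.eq_one_iff _).2 h0
    rw [map_mul, map_mul, map_mul, map_inv, map_inv] at h1
    have h2 := mul_inv_eq_one.1 h1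
    exact (mul_inv_eq_iff_eq_mul.1 h2).symm
  -- the closure
  let S : Set M := (M0 : Set M) ∪ {a | a ∈ as}
  have hNS : N = Subgroup.closure S := by
    rw [hN, Subgroup.closure_union, Subgroup.closure_eq]
  have hS : ∀ s ∈ S, ∀ t ∈ S, π s * π t = π t * π s := by
    rintro s (hs | hs) t (ht | ht)
    · rw [← map_mul, ← map_mul, hM0 s hs t ht]
    · exact (hc1 t ht s hs).symm
    · exact hc1 s hs t ht
    · exact hQ2 s hs t ht
  have hcl1 : ∀ s ∈ Subgroup.closure S, ∀ t ∈ S, π s * π t = π t * π s := by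
    intro s hs t ht
    have hle : Subgroup.closure S ≤ (Subgroup.centralizer {π t}).comap π := by
      rw [Subgroup.closure_le]
      intro r hr
      show π r ∈ Subgroup.centralizer {π t}
      rw [Subgroup.mem_centralizer_singleton_iff]
      exact hS r hr t ht
    have := hle hs
    rw [Subgroup.mem_comap, Subgroup.mem_centralizer_singleton_iff] at this
    exact this
  have hcl2 : ∀ s ∈ Subgroup.closure S, ∀ t ∈ Subgroup.closure S, π s * π t = π t * π s := by
    intro s hs t ht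
    have hle : Subgroup.closure S ≤ (Subgroup.centralizer {π s}).comap π := by
      rw [Subgroup.closure_le]
      intro r hr
      show π r ∈ Subgroup.centralizer {π s}
      rw [Subgroup.mem_centralizer_singleton_iff]
      exact (hcl1 s hs r hr).symm
    have := hle ht
    rw [Subgroup.mem_comap, Subgroup.mem_centralizer_singleton_iff] at this
    exact this.symm
  have hle : ⁅N, N⁆ ≤ stab as := by
    rw [hNS, Subgroup.commutator_le]
    intro s hs t ht
    have h1 := hcl2 s hs t ht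
    have : π (s * t * s⁻¹ * t⁻¹) = 1 := by
      rw [map_mul, map_mul, map_mul, map_inv, map_inv, h1]
      group
    exact (QuotientGroup.eq_one_iff _).1 this
  exact ((mem_stab as z).1 (hle hz) x).2 hx

end

end Pool.Agent.H6L2
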